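import Pool.Agent.H63.Final

/-!
# MP_83bd6e_co: the (1:2) achievement game on aligned rectangle lattices, exact solution

The definitions used in the statement (`board`, `lattice`, `IsWinningSet`, `MakerWins`,
`MakerHasWin`) are in `Pool/Agent/H63/Defs.lean`.

* `Pool.Agent.H63.MakerHasWin N q`: Maker, who claims one point per move and moves first, has a
  winning strategy against Breaker, who claims two points per move, in the achievement game on
  `{1, ..., N}²` whose winning sets are the `q × q` aligned rectangle lattices.

The theorem says that the largest `q ≥ 2` for which Maker wins equals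
`⌊√(2 log₃ N) + o(1)⌋`, that is, `A_{1:2}(N) = ⌊f(N) + o(1)⌋` with `f(N) = √(2 log₃ N)`.
-/

namespace Pool.Agent.Results.MP_83bd6e_co.RectLattice

open Filter Topology Pool.Agent.H63

/-- **Exact solution of the (1:2) achievement game on aligned rectangle lattices.**
There is a sequence `e N → 0` such that, for all large `N`, the largest `q ≥ 2` for which Maker
has a winning strategy in the `(1:2)` game on `{1, ..., N}²` (Maker first, one point per move;
Breaker two points per move; winning sets the `q × q` aligned rectangle lattices) exists and equals
`⌊√(2 log₃ N) + e N⌋`. -/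
theorem result : ∃ e : ℕ → ℝ, Tendsto e atTop (𝓝 0) ∧ ∀ᶠ N : ℕ in atTop,
    IsGreatest {q : ℕ | 2 ≤ q ∧ MakerHasWin N q} ⌊Real.sqrt (2 * Real.logb 3 N) + e N⌋₊ :=
  main_theorem

end Pool.Agent.Results.MP_83bd6e_co.RectLattice
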